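import Pool.Agent.Helper44.Sub.FArich
import Pool.Agent.Helper44.Sub.ExtGpd

/-!
# Generic hyperfiniteness: finite groupoids have leaders, chains, restriction of actions
(MP_bdf835_lc)
-/

set_option autoImplicit false

namespace Pool.Agent.Helper6.GH

open Pool.Agent.Helper44.Sub Pool.Agent.Helper44.Sub.B5

variable {X G : Type} [MeasurableSpace X] [Group G]

/-- A measurable groupoid whose labels lie in a finite set has a coherent leader map. -/
theorem exists_leader [Countable G] {A : RAct X G} (hsep : Sep A) (J : Gpd A) (T : Finset G)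
    (hT : ∀ x s, J.rel x s → s ∈ T) :
    ∃ χ : X → G, MF χ ∧ (∀ x, J.rel x (χ x)) ∧
      ∀ x r, J.rel x r → χ x = r * χ (A.act x r) := by
  classical
  let T' : Finset G := (T ×ˢ T).image (fun p => p.1⁻¹ * p.2)
  obtain ⟨q, v, hv, hvs⟩ := hsep (T'.erase 1) (by simp)
  have hinj : ∀ x s s', J.rel x s → J.rel x s' → v (A.act x s) = v (A.act x s') → s = s' := by
    intro x s s' h1 h2 hvv
    by_contra hne
    have e3 : s⁻¹ * s' ∈ T'.erase 1 := by
      refine Finset.mem_erase.2 ⟨fun h => hne (inv_mul_eq_one.1 h), ?_⟩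
      exact Finset.mem_image.2 ⟨(s, s'), Finset.mem_product.2 ⟨hT x s h1, hT x s' h2⟩, rfl⟩
    have e4 := hvs (A.act x s) _ e3
    rw [A.mul, mul_inv_cancel_left] at e4
    exact e4 hvv.symm
  have hex : ∀ x, ∃ s, J.rel x s ∧ ∀ s', J.rel x s' → v (A.act x s) ≤ v (A.act x s') := by
    intro x
    obtain ⟨s, hs, hmin⟩ := Finset.exists_min_image (T.filter (fun s => J.rel x s))
      (fun s => v (A.act x s)) ⟨1, Finset.mem_filter.2 ⟨hT x 1 (J.one x), J.one x⟩⟩
    refine ⟨s, (Finset.mem_filter.1 hs).2, fun s' hs' => ?_⟩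
    exact hmin s' (Finset.mem_filter.2 ⟨hT x s' hs', hs'⟩)
  choose χ hχ1 hχ2 using hex
  have huniq : ∀ x s, J.rel x s → (∀ s', J.rel x s' → v (A.act x s) ≤ v (A.act x s')) →
      χ x = s := by
    intro x s h1 h2
    exact hinj x _ _ (hχ1 x) h1 (le_antisymm (hχ2 x s h1) (h2 _ (hχ1 x)))
  refine ⟨χ, ?_, hχ1, ?_⟩
  · intro s
    have h : {x | χ x = s} = {x | J.rel x s} ∩
        ⋂ s' : G, ({x | J.rel x s'}ᶜ ∪ {x | v (A.act x s) ≤ v (A.act x s')}) := by
      ext x
      simp only [Set.mem_inter_iff, Set.mem_iInter, Set.mem_union, Set.mem_compl_iff,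
        Set.mem_ofPred_eq]
      constructor
      · rintro rfl
        refine ⟨hχ1 x, fun s' => ?_⟩
        by_cases h : J.rel x s'
        · exact Or.inr (hχ2 x s' h)
        · exact Or.inl h
      · rintro ⟨h1, h2⟩
        refine huniq x s h1 fun s' hs' => ?_
        exact (h2 s').resolve_left (fun h => h hs')
    rw [h]
    refine (J.meas s).inter (MeasurableSet.iInter fun s' => (J.meas s').compl.union ?_)
    exact MF.rel₂ (MF.act hv A s) (MF.act hv A s') (fun a b => a ≤ b)
  · intro x r hr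
    have htr : ∀ s, J.rel (A.act x r) s ↔ J.rel x (r * s) := by
      intro s
      constructor
      · exact fun h => J.mul x r s hr h
      · intro h
        have h3 := J.mul (A.act x r) r⁻¹ (r * s) (J.inv x r hr)
          (by rw [A.mul, mul_inv_cancel, A.one]; exact h)
        rwa [inv_mul_cancel_left] at h3
    refine huniq x _ ((htr _).1 (hχ1 _)) fun s' hs' => ?_
    have h5 : J.rel (A.act x r) (r⁻¹ * s') := (htr _).2 (by rwa [mul_inv_cancel_left])
    have h6 := hχ2 (A.act x r) _ h5
    rw [A.mul, A.mul, mul_inv_cancel_left] at h6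
    exact h6

/-- A chain of `J`-steps in `R` of one colour. -/
def Ch {A : RAct X G} (J : Gpd A) (R : Finset G) {D : ℕ} (c : X → Fin D) : X → List G → Prop
  | _, [] => True
  | x, r :: l => (r ∈ R ∧ J.rel x r ∧ c (A.act x r) = c x) ∧ Ch J R c (A.act x r) l

theorem ch_append {A : RAct X G} (J : Gpd A) (R : Finset G) {D : ℕ} (c : X → Fin D) :
    ∀ (l l' : List G) (x : X), Ch J R c x l → Ch J R c (A.act x l.prod) l' →
      Ch J R c x (l ++ l')
  | [], l', x, _, h' => by
      rw [List.prod_nil, A.one] at h'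
      exact h'
  | r :: l, l', x, h, h' => by
      refine ⟨h.1, ch_append J R c l l' _ h.2 ?_⟩
      rw [A.mul]
      exact h'

theorem ch_rel {A : RAct X G} (J : Gpd A) (R : Finset G) {D : ℕ} (c : X → Fin D) :
    ∀ (l : List G) (x : X), Ch J R c x l → J.rel x l.prod
  | [], x, _ => J.one x
  | r :: l, x, h => by
      rw [List.prod_cons]
      exact J.mul x r _ h.1.2.1 (ch_rel J R c l _ h.2)

theorem ch_inv {A : RAct X G} (J : Gpd A) (R : Finset G) (hR : ∀ r ∈ R, r⁻¹ ∈ R) {D : ℕ}
    (c : X → Fin D) : ∀ (l : List G) (x : X), Ch J R c x l →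
      ∃ l', Ch J R c (A.act x l.prod) l' ∧ l'.prod = (l.prod)⁻¹
  | [], x, _ => ⟨[], trivial, by simp⟩
  | r :: l, x, h => by
      obtain ⟨l', h1, h2⟩ := ch_inv J R hR c l _ h.2
      rw [A.mul] at h1
      refine ⟨l' ++ [r⁻¹], ch_append J R c _ _ _ h1 ?_, ?_⟩
      · have e : A.act (A.act x (r * l.prod)) l'.prod = A.act x r := by
          rw [h2, A.mul, mul_assoc, mul_inv_cancel, mul_one]
        rw [List.prod_cons, e]
        refine ⟨⟨hR r h.1.1, J.inv x r h.1.2.1, ?_⟩, trivial⟩
        rw [A.mul, mul_inv_cancel, A.one]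
        exact h.1.2.2.symm
      · rw [List.prod_append, h2, List.prod_cons, List.prod_nil, mul_one, List.prod_cons,
          mul_inv_rev]

theorem ch_meas {A : RAct X G} (J : Gpd A) (R : Finset G) {D : ℕ} (c : X → Fin D) (hc : MF c) :
    ∀ (l : List G), MeasurableSet {x | Ch J R c x l}
  | [] => MeasurableSet.univ
  | r :: l => by
      have h : {x | Ch J R c x (r :: l)} =
          ({x | r ∈ R} ∩ ({x | J.rel x r} ∩ {x | c (A.act x r) = c x})) ∩
            (fun x => A.act x r) ⁻¹' {x | Ch J R c x l} := rfl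
      rw [h]
      refine MeasurableSet.inter ((MeasurableSet.const _).inter ((J.meas r).inter ?_))
        (A.meas r (ch_meas J R c hc l))
      exact MF.rel₂ (MF.act hc A r) hc (fun a b => a = b)

/-- Bounded chains of one colour give finite asymptotic dimension. -/
theorem FA_of_chain [Countable G] {A : RAct X G} (hsep : Sep A) (J : Gpd A) (D : ℕ)
    (h : ∀ R : Finset G, ∃ (T : Finset G) (c : X → Fin D), MF c ∧
      ∀ x l, Ch J R c x l → l.prod ∈ T) : FA J D := by
  classical
  intro R₀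
  let R : Finset G := R₀ ∪ R₀.image (fun r => r⁻¹)
  have hR : ∀ r ∈ R, r⁻¹ ∈ R := by
    intro r hr
    rcases Finset.mem_union.1 hr with h | h
    · exact Finset.mem_union_right _ (Finset.mem_image_of_mem _ h)
    · obtain ⟨r', h1, rfl⟩ := Finset.mem_image.1 h
      rw [inv_inv]
      exact Finset.mem_union_left _ h1
  obtain ⟨T, c, hc, hT⟩ := h R
  let C : Gpd A :=
    { rel := fun x s => ∃ l, Ch J R c x l ∧ l.prod = s
      one := fun x => ⟨[], trivial, rfl⟩
      mul := by
        rintro x _ _ ⟨l, h1, rfl⟩ ⟨l', h2, rfl⟩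
        exact ⟨l ++ l', ch_append J R c _ _ _ h1 h2, List.prod_append⟩
      inv := by
        rintro x _ ⟨l, h1, rfl⟩
        exact ch_inv J R hR c l x h1
      meas := by
        intro s
        have h : {x | ∃ l, Ch J R c x l ∧ l.prod = s} =
            ⋃ (l : List G), ({x | Ch J R c x l} ∩ {x | l.prod = s}) := by
          ext x; simp
        rw [h]
        exact MeasurableSet.iUnion fun l => (ch_meas J R c hc l).inter (MeasurableSet.const _) }
  have hCT : ∀ x s, C.rel x s → s ∈ T := by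
    rintro x _ ⟨l, h1, rfl⟩
    exact hT x l h1
  have hCJ : ∀ x s, C.rel x s → J.rel x s := by
    rintro x _ ⟨l, h1, rfl⟩
    exact ch_rel J R c l x h1
  obtain ⟨χ, hχ1, hχ2, hχ3⟩ := exists_leader hsep C T hCT
  refine ⟨T, c, χ, hc, hχ1, fun x => hCT x _ (hχ2 x), fun x => hCJ x _ (hχ2 x), ?_⟩
  intro x r hr hJ hcc
  refine hχ3 x r ⟨[r], ⟨⟨Finset.mem_union_left _ hr, hJ, hcc.symm⟩, trivial⟩, ?_⟩
  simp

/-- Restriction of an action along a homomorphism. -/
def res {K : Type} [Group K] (A : RAct X G) (φ : K →* G) : RAct X K where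
  act := fun x k => A.act x (φ k)
  one := fun x => by rw [map_one, A.one]
  mul := fun x s t => by rw [A.mul, map_mul]
  meas := fun s => A.meas (φ s)

/-- Richness with an arbitrary finite alphabet. -/
theorem rich_fin {A : RAct X G} (hr : Rich A) (κ : Type) [Finite κ] (E : Finset G)
    (Q : (G → κ) → Prop) (hloc : ∀ f f' : G → κ, (∀ s ∈ E, f s = f' s) → Q f → Q f')
    (c : G → κ) (hc : ∀ g, Q (fun s => c (g * s))) :
    ∃ v : X → κ, MF v ∧ ∀ x, Q (fun s => v (A.act x s)) := by
  obtain ⟨k, ⟨e⟩⟩ := Finite.exists_equiv_fin κ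
  obtain ⟨v, hv, hvQ⟩ := hr k E (fun f => Q (fun s => e.symm (f s)))
    (by
      intro f f' hff hf
      exact hloc _ _ (fun s hs => by rw [hff s hs]) hf)
    ⟨fun g => e (c g), fun g => by simpa using hc g⟩
  exact ⟨fun x => e.symm (v x), MF.map hv (fun a => e.symm a), hvQ⟩

/-- A rich action restricts to a rich action of every subgroup. -/
theorem rich_res {K : Type} [Group K] {A : RAct X G} (hr : Rich A) (φ : K →* G)
    (hφ : Function.Injective φ) : Rich (res A φ) := by
  classical
  intro k E Q hloc hsol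
  obtain ⟨c, hc⟩ := hsol
  let M : Subgroup G := φ.range
  have hq : ∀ g : G, ((g : G ⧸ M).out)⁻¹ * g ∈ M := fun g =>
    QuotientGroup.leftRel_apply.1 (Quotient.exact (Quotient.out_eq (g : G ⧸ M)))
  have hco : ∀ (g : G) (s : K), ((g * φ s : G) : G ⧸ M) = (g : G ⧸ M) := by
    intro g s
    refine (QuotientGroup.eq.2 ?_).symm
    rw [inv_mul_cancel_left]
    exact ⟨s, rfl⟩
  choose h hh using hq
  have hmul : ∀ (g : G) (s : K), h (g * φ s) = h g * s := by
    intro g s
    apply hφ
    rw [map_mul, hh, hh, hco, mul_assoc]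
  obtain ⟨v, hv, hvQ⟩ := hr k (E.image φ) (fun f => Q (fun s => f (φ s)))
    (by
      intro f f' hff hf
      exact hloc _ _ (fun s hs => hff _ (Finset.mem_image_of_mem _ hs)) hf)
    ⟨fun g => c (h g), by
      intro g
      show Q (fun s => c (h (g * φ s)))
      simp only [hmul]
      exact hc (h g)⟩
  exact ⟨v, hv, fun x => hvQ x⟩

end Pool.Agent.Helper6.GH
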