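import Pool.Agent.Helper6.GH.Inter

/-!
# Generic hyperfiniteness: residually finite soluble groups, countability (MP_bdf835_lc)
-/

set_option autoImplicit false
set_option linter.unusedSectionVars false

namespace Pool.Agent.Helper6.GH

open Pool.Agent.Helper44.Sub

theorem countable_of_fg (G : Type) [Group G] (hfg : Group.FG G) : Countable G := by
  classical
  obtain ⟨S, hS⟩ := hfg.out
  have h1 : Function.Surjective (FreeGroup.lift (fun x : S => (x : G))) := by
    rw [← MonoidHom.range_eq_top, FreeGroup.range_lift_eq_closure]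
    simpa using hS
  have h2 : Countable (FreeGroup S) :=
    Function.Injective.countable (f := FreeGroup.toWord) FreeGroup.toWord_injective
  exact h1.countable

/-- finitely generated residually finite soluble groups -/
theorem RH_solRF (G : Type) [Group G] (hfg : Group.FG G) (hsol : Group.IsSolvable G)
    (hRF : ∀ g : G, g ≠ 1 → ∃ K : Subgroup G, K.Normal ∧ K.FiniteIndex ∧ g ∉ K) : RH G := by
  have hc : Countable G := countable_of_fg G hfg
  obtain ⟨ℓ, hℓ⟩ := hsol.solvable
  obtain ⟨N, hn, h0, hanti, hcomm, hrf, hN⟩ := closure_chain (⊥ : Subgroup G) ℓ (le_of_eq hℓ)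
    (fun g hg => by
      obtain ⟨K, h1, h2, h3⟩ := hRF g (fun h => hg (Subgroup.mem_bot.2 h))
      exact ⟨K, h1, h2, bot_le, h3⟩)
  have : ∀ i, (N i).Normal := hn
  intro X _ A hr
  refine HH_Tb (fun _ _ _ _ _ _ N _ J δ h1 h2 h3 h4 h5 h6 =>
      Pool.Agent.Helper44.Sub.engineN N J δ h1 h2 h3 h4 h5 h6)
    hr hfg ℓ N h0 hanti ?_ (fun i _ _ g hg => hrf i g hg) (⊥ : Subgroup G) bot_le ?_ ?_
  · intro i _
    refine locDoubling_of_comm _ ?_
    rintro _ ⟨a, ha, rfl⟩ _ ⟨b, hb, rfl⟩
    rw [← map_mul, ← map_mul]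
    refine (QuotientGroup.eq_iff_div_mem).2 ?_
    have e : a * b / (b * a) = a * b * a⁻¹ * b⁻¹ := by
      rw [div_eq_mul_inv, mul_inv_rev]; simp only [mul_assoc]
    rw [e]
    exact hcomm i a ha b hb
  · intro M hM _
    rw [hN] at hM
    have hs : Subsingleton ↥(M.map (QuotientGroup.mk' (⊥ : Subgroup G))) := by
      refine ⟨?_⟩
      rintro ⟨_, a, ha, rfl⟩ ⟨_, b, hb, rfl⟩
      have ha' : a = 1 := Subgroup.mem_bot.1 (hM ha)
      have hb' : b = 1 := Subgroup.mem_bot.1 (hM hb)
      simp [ha', hb']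
    exact GAs_of_FinAsdim finAsdim_of_subsingleton
  · intro M hM _
    have hs : Subsingleton ↥M := by
      refine ⟨?_⟩
      rintro ⟨a, ha⟩ ⟨b, hb⟩
      have ha' : a = 1 := Subgroup.mem_bot.1 (hM ha)
      have hb' : b = 1 := Subgroup.mem_bot.1 (hM hb)
      simp [ha', hb']
    exact GAs_of_FinAsdim finAsdim_of_subsingleton

end Pool.Agent.Helper6.GH
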