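import Pool.Agent.Helper6.GH.Base

/-!
# Generic hyperfiniteness for free products: paths in the Bass-Serre tree (MP_bdf835_lc)
-/

set_option autoImplicit false

namespace Pool.Agent.Helper6.GH

open Pool.Agent.Helper44.Sub Pool.Agent.Helper44.Sub.B5 Monoid.CoprodI

variable {X : Type} [MeasurableSpace X] {ι : Type} {H : ι → Type} [∀ i, Group (H i)]

/-- product of a list of letters -/
def lp (l : List (Σ i, H i)) : Monoid.CoprodI H := (l.map fun p => of p.2).prod

theorem lp_nil : lp ([] : List (Σ i, H i)) = 1 := rfl

theorem lp_cons (p : Σ i, H i) (l : List (Σ i, H i)) : lp (p :: l) = of p.2 * lp l := by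
  simp [lp]

theorem lp_append (l l' : List (Σ i, H i)) : lp (l ++ l') = lp l * lp l' := by
  simp [lp]

variable {A : RAct X (Monoid.CoprodI H)}

/-- a path of allowed moves -/
def Pth (mv : ∀ i, Gpd (res A (of (M := H) (i := i)))) : X → List (Σ i, H i) → Prop
  | _, [] => True
  | x, p :: l => (mv p.1).rel x p.2 ∧ Pth mv (A.act x (of p.2)) l

variable (mv : ∀ i, Gpd (res A (of (M := H) (i := i))))

theorem pth_append : ∀ (l l' : List (Σ i, H i)) (x : X), Pth mv x l →
    Pth mv (A.act x (lp l)) l' → Pth mv x (l ++ l')
  | [], l', x, _, h' => by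
      rw [lp_nil, A.one] at h'
      exact h'
  | p :: l, l', x, h, h' => by
      refine ⟨h.1, pth_append l l' _ h.2 ?_⟩
      rw [A.mul, ← lp_cons]
      exact h'

theorem pth_inv : ∀ (l : List (Σ i, H i)) (x : X), Pth mv x l →
    ∃ l', Pth mv (A.act x (lp l)) l' ∧ lp l' = (lp l)⁻¹
  | [], x, _ => ⟨[], trivial, by simp [lp_nil]⟩
  | p :: l, x, h => by
      obtain ⟨l', h1, h2⟩ := pth_inv l _ h.2
      rw [A.mul] at h1
      have e3 : lp [(⟨p.1, p.2⁻¹⟩ : Σ i, H i)] = (of p.2)⁻¹ := by
        rw [lp_cons, lp_nil, mul_one, map_inv]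
      refine ⟨l' ++ [⟨p.1, p.2⁻¹⟩], pth_append mv _ _ _ (by rw [lp_cons]; exact h1) ?_, ?_⟩
      · have e : A.act (A.act x (lp (p :: l))) (lp l') = A.act x (of p.2) := by
          rw [h2, A.mul, lp_cons, mul_assoc, mul_inv_cancel, mul_one]
        rw [e]
        exact ⟨(mv p.1).inv x p.2 h.1, trivial⟩
      · rw [lp_append, h2, e3, lp_cons, mul_inv_rev]

theorem pth_meas : ∀ (l : List (Σ i, H i)), MeasurableSet {x | Pth mv x l}
  | [] => MeasurableSet.univ
  | p :: l => ((mv p.1).meas p.2).inter (A.meas (of p.2) (pth_meas l))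

/-- the groupoid generated by the moves -/
def glue [Countable ι] [∀ i, Countable (H i)] : Gpd A where
  rel := fun x s => ∃ l, Pth mv x l ∧ lp l = s
  one := fun x => ⟨[], trivial, rfl⟩
  mul := by
    rintro x _ _ ⟨l, h1, rfl⟩ ⟨l', h2, rfl⟩
    exact ⟨l ++ l', pth_append mv _ _ _ h1 h2, lp_append _ _⟩
  inv := by
    rintro x _ ⟨l, h1, rfl⟩
    exact pth_inv mv l x h1
  meas := by
    intro s
    have h : {x | ∃ l, Pth mv x l ∧ lp l = s} =
        ⋃ (l : List (Σ i, H i)), ({x | Pth mv x l} ∩ {x | lp l = s}) := by
      ext x; simp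
    rw [h]
    exact MeasurableSet.iUnion fun l => (pth_meas mv l).inter (MeasurableSet.const _)

section labels

variable [DecidableEq ι] (τ : X → Option ι)

/-- indicator of the type of a point -/
def ind (i : ι) (x : X) : ℤ := if τ x = some i then 1 else 0

theorem ind_nonneg (i : ι) (x : X) : 0 ≤ ind τ i x := by
  unfold ind; split_ifs <;> norm_num

theorem ind_le (i : ι) (x : X) : ind τ i x ≤ 1 := by
  unfold ind; split_ifs <;> norm_num

variable (A) in
/-- the change of height along a path -/
def hz : X → List (Σ i, H i) → ℤ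
  | _, [] => 0
  | x, p :: l => (ind τ p.1 (A.act x (of p.2)) - ind τ p.1 x) + hz (A.act x (of p.2)) l

/-- a path with heights in an interval -/
def GW (a b : ℤ) : X → ℤ → List (Σ i, H i) → Prop
  | _, z, [] => a ≤ z ∧ z ≤ b
  | x, z, p :: l => (a ≤ z ∧ z ≤ b) ∧ (mv p.1).rel x p.2 ∧
      GW a b (A.act x (of p.2)) (z + (ind τ p.1 (A.act x (of p.2)) - ind τ p.1 x)) l

theorem gw_head {a b : ℤ} : ∀ (l : List (Σ i, H i)) {x : X} {z : ℤ}, GW mv τ a b x z l →
    a ≤ z ∧ z ≤ b
  | [], _, _, h => h
  | _ :: _, _, _, h => h.1

theorem gw_pth {a b : ℤ} : ∀ (l : List (Σ i, H i)) (x : X) (z : ℤ), GW mv τ a b x z l →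
    Pth mv x l
  | [], _, _, _ => trivial
  | _ :: l, _, _, h => ⟨h.2.1, gw_pth l _ _ h.2.2⟩

theorem hz_le : ∀ (l : List (Σ i, H i)) (x : X), |hz A τ x l| ≤ l.length
  | [], x => by simp [hz]
  | p :: l, x => by
      have h1 := hz_le l (A.act x (of p.2))
      have h2 := ind_nonneg τ p.1 x
      have h3 := ind_le τ p.1 x
      have h4 := ind_nonneg τ p.1 (A.act x (of p.2))
      have h5 := ind_le τ p.1 (A.act x (of p.2))
      rw [abs_le] at h1 ⊢
      simp only [hz, List.length_cons, Nat.cast_add, Nat.cast_one]
      constructor <;> omega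

theorem gw_of_pth {a b : ℤ} : ∀ (l : List (Σ i, H i)) (x : X) (z : ℤ), Pth mv x l →
    a ≤ z - l.length → z + l.length ≤ b → GW mv τ a b x z l
  | [], x, z, _, h1, h2 => by
      simp only [List.length_nil, Nat.cast_zero] at h1 h2
      exact ⟨by omega, by omega⟩
  | p :: l, x, z, h, h1, h2 => by
      simp only [List.length_cons, Nat.cast_add, Nat.cast_one] at h1 h2
      have h3 := ind_nonneg τ p.1 x
      have h4 := ind_le τ p.1 x
      have h5 := ind_nonneg τ p.1 (A.act x (of p.2))
      have h6 := ind_le τ p.1 (A.act x (of p.2))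
      exact ⟨⟨by omega, by omega⟩, h.1, gw_of_pth l _ _ h.2 (by omega) (by omega)⟩

theorem gw_append {a b : ℤ} : ∀ (l l' : List (Σ i, H i)) (x : X) (z : ℤ), GW mv τ a b x z l →
    GW mv τ a b (A.act x (lp l)) (z + hz A τ x l) l' → GW mv τ a b x z (l ++ l')
  | [], l', x, z, _, h' => by
      rw [lp_nil, A.one] at h'
      simpa [hz] using h'
  | p :: l, l', x, z, h, h' => by
      refine ⟨h.1, h.2.1, gw_append l l' _ _ h.2.2 ?_⟩
      rw [A.mul, ← lp_cons]
      simp only [hz] at h'
      rw [add_assoc]
      exact h'

/-- reduction of paths -/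
theorem gw_red {a b : ℤ} : ∀ (l : List (Σ i, H i)) (x : X) (z : ℤ), GW mv τ a b x z l →
    ∃ w : List (Σ i, H i), (∀ p ∈ w, p.2 ≠ 1) ∧ w.IsChain (fun p p' => p.1 ≠ p'.1) ∧
      lp w = lp l ∧ GW mv τ a b x z w
  | [], x, z, h => ⟨[], by simp, List.isChain_nil, rfl, h⟩
  | p :: l, x, z, h => by
      obtain ⟨w, hw1, hw2, hw3, hw4⟩ := gw_red l _ _ h.2.2
      by_cases hp : p.2 = 1
      · refine ⟨w, hw1, hw2, ?_, ?_⟩
        · rw [lp_cons, hp, map_one, one_mul, hw3]
        · rw [hp, map_one, A.one, sub_self, add_zero] at hw4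
          exact hw4
      · cases w with
        | nil =>
          refine ⟨[p], ?_, List.isChain_singleton _, ?_, h.1, h.2.1, hw4⟩
          · intro p' hp'
            rw [List.mem_singleton] at hp'
            rw [hp']; exact hp
          · rw [lp_cons, lp_cons, ← hw3]
        | cons p' w' =>
          obtain ⟨i, g⟩ := p
          obtain ⟨i', g'⟩ := p'
          by_cases hi : i = i'
          · subst hi
            have e1 : A.act (A.act x (of g)) (of g') = A.act x (of (g * g')) := by
              rw [A.mul, map_mul]
            have hw5 := hw4.2.2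
            have e2 : z + (ind τ i (A.act x (of g)) - ind τ i x) +
                (ind τ i (A.act (A.act x (of g)) (of g')) - ind τ i (A.act x (of g))) =
                z + (ind τ i (A.act x (of (g * g'))) - ind τ i x) := by
              rw [e1]; ring
            simp only at hw5
            rw [e2, e1] at hw5
            have hc : w'.IsChain (fun p p' => p.1 ≠ p'.1) := hw2.tail
            by_cases hg : g * g' = 1
            · refine ⟨w', fun p hp' => hw1 p (List.mem_cons_of_mem _ hp'), hc, ?_, ?_⟩
              · rw [lp_cons, ← hw3, lp_cons, ← mul_assoc, ← map_mul, hg, map_one, one_mul]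
              · rw [hg, map_one, A.one, sub_self, add_zero] at hw5
                exact hw5
            · refine ⟨⟨i, g * g'⟩ :: w', ?_, ?_, ?_, h.1, ?_, hw5⟩
              · intro p hp'
                rcases List.mem_cons.1 hp' with rfl | h'
                · exact hg
                · exact hw1 p (List.mem_cons_of_mem _ h')
              · cases w' with
                | nil => exact List.isChain_singleton _
                | cons p'' w'' =>
                  rw [List.isChain_cons_cons] at hw2 ⊢
                  exact ⟨hw2.1, hw2.2⟩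
              · rw [lp_cons, lp_cons, ← hw3, lp_cons, ← mul_assoc, ← map_mul]
              · exact (mv i).mul x g g' h.2.1 hw4.2.1
          · refine ⟨⟨i, g⟩ :: ⟨i', g'⟩ :: w', ?_, ?_, ?_, h.1, h.2.1, hw4⟩
            · intro p hp'
              rcases List.mem_cons.1 hp' with rfl | h'
              · exact hp
              · exact hw1 p h'
            · rw [List.isChain_cons_cons]
              exact ⟨hi, hw2⟩
            · rw [lp_cons, hw3, ← lp_cons]

theorem down {a b : ℤ}
    (hτ : ∀ i x h, (mv i).rel x h → h ≠ 1 → τ x = some i ∨ τ (A.act x (of h)) = some i) :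
    ∀ (w : List (Σ i, H i)) (x : X) (z : ℤ), (∀ p ∈ w, p.2 ≠ 1) →
      w.IsChain (fun p p' => p.1 ≠ p'.1) → GW mv τ a b x z w →
      (∀ p ∈ w.head?, τ x ≠ some p.1) → (w.length : ℤ) ≤ b - z
  | [], x, z, _, _, h, _ => by
      have := h.2
      simp only [List.length_nil, Nat.cast_zero]
      omega
  | p :: w, x, z, h1, h2, h3, h4 => by
      have h5 : τ x ≠ some p.1 := h4 p (by simp)
      have h6 : τ (A.act x (of p.2)) = some p.1 :=
        (hτ p.1 x p.2 h3.2.1 (h1 p (by simp))).resolve_left h5
      have h7 := down hτ w _ _ (fun p' hp' => h1 p' (List.mem_cons_of_mem _ hp')) h2.tail h3.2.2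
        (by
          intro p' hp'
          rw [h6]
          intro h
          cases w with
          | nil => simp at hp'
          | cons p'' w'' =>
            rw [List.isChain_cons_cons] at h2
            simp only [List.head?_cons, Option.mem_def, Option.some.injEq] at hp'
            rw [hp'] at h2
            exact h2.1 (Option.some.inj h))
      have e1 : ind τ p.1 (A.act x (of p.2)) = 1 := by simp [ind, h6]
      have e2 : ind τ p.1 x = 0 := by simp [ind, h5]
      rw [e1, e2] at h7
      simp only [List.length_cons, Nat.cast_add, Nat.cast_one]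
      omega

theorem updown {a b : ℤ}
    (hτ : ∀ i x h, (mv i).rel x h → h ≠ 1 → τ x = some i ∨ τ (A.act x (of h)) = some i) :
    ∀ (w : List (Σ i, H i)) (x : X) (z : ℤ), (∀ p ∈ w, p.2 ≠ 1) →
      w.IsChain (fun p p' => p.1 ≠ p'.1) → GW mv τ a b x z w →
      (w.length : ℤ) ≤ (z - a) + (b - a) + 1
  | [], x, z, _, _, h => by
      have := h.1
      have := h.2
      simp only [List.length_nil, Nat.cast_zero]
      omega
  | p :: w, x, z, h1, h2, h3 => by
      have hz1 := h3.1
      have hz2 := gw_head mv τ w h3.2.2
      by_cases h5 : τ x = some p.1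
      · have h1' : ∀ p' ∈ w, p'.2 ≠ 1 := fun p' hp' => h1 p' (List.mem_cons_of_mem _ hp')
        have e2 : ind τ p.1 x = 1 := by simp [ind, h5]
        by_cases h6 : τ (A.act x (of p.2)) = some p.1
        · have e1 : ind τ p.1 (A.act x (of p.2)) = 1 := by simp [ind, h6]
          have h7 := down mv τ hτ w _ _ h1' h2.tail h3.2.2
            (by
              intro p' hp'
              rw [h6]
              intro h
              cases w with
              | nil => simp at hp'
              | cons p'' w'' =>
                rw [List.isChain_cons_cons] at h2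
                simp only [List.head?_cons, Option.mem_def, Option.some.injEq] at hp'
                rw [hp'] at h2
                exact h2.1 (Option.some.inj h))
          rw [e1, e2] at h7
          simp only [List.length_cons, Nat.cast_add, Nat.cast_one]
          omega
        · have e1 : ind τ p.1 (A.act x (of p.2)) = 0 := by simp [ind, h6]
          have h7 := updown hτ w _ _ h1' h2.tail h3.2.2
          rw [e1, e2] at h7
          simp only [List.length_cons, Nat.cast_add, Nat.cast_one]
          omega
      · have h7 := down mv τ hτ (p :: w) x z h1 h2 h3 (by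
          intro p' hp'
          simp only [List.head?_cons, Option.mem_def, Option.some.injEq] at hp'
          rw [← hp']
          exact h5)
        omega

end labels

end Pool.Agent.Helper6.GH
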