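import Pool.Agent.Helper6.GH.Free

/-!
# Generic hyperfiniteness for free products: finite asymptotic dimension (MP_bdf835_lc)
-/

set_option autoImplicit false
set_option linter.unusedSectionVars false

namespace Pool.Agent.Helper6.GH

open Pool.Agent.Helper44.Sub Pool.Agent.Helper44.Sub.B5 Monoid.CoprodI

/-- products of at most `n` elements of `K` -/
def PS {G : Type} [Group G] [DecidableEq G] (K : Finset G) : ℕ → Finset G
  | 0 => {1}
  | n + 1 => PS K n ∪ (K ×ˢ PS K n).image (fun p => p.1 * p.2)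

theorem one_mem_PS {G : Type} [Group G] [DecidableEq G] (K : Finset G) : ∀ n, (1 : G) ∈ PS K n
  | 0 => by simp [PS]
  | n + 1 => Finset.mem_union_left _ (one_mem_PS K n)

theorem block_eq {B z z' : ℤ} (hB : 0 < B) (h1 : z' < z + B) (h2 : z < z' + B)
    (h : z' % (2 * B) / B = z % (2 * B) / B) : z' / B = z / B := by
  have key : ∀ u : ℤ, u / B = 2 * (u / (2 * B)) + u % (2 * B) / B := by
    intro u
    have e : u = u % (2 * B) + (2 * (u / (2 * B))) * B := by
      have := Int.emod_add_mul_ediv u (2 * B)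
      linarith
    conv_lhs => rw [e]
    rw [Int.add_mul_ediv_right _ _ (ne_of_gt hB)]
    ring
  have k1 := key z
  have k2 := key z'
  have b1 : z' / B ≤ z / B + 1 := by
    have h3 : z' / B ≤ (z + 1 * B) / B := Int.ediv_le_ediv hB (by linarith)
    rw [Int.add_mul_ediv_right _ _ (ne_of_gt hB)] at h3
    exact h3
  have b2 : z / B ≤ z' / B + 1 := by
    have h3 : z / B ≤ (z' + 1 * B) / B := Int.ediv_le_ediv hB (by linarith)
    rw [Int.add_mul_ediv_right _ _ (ne_of_gt hB)] at h3
    exact h3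
  omega

variable {X : Type} [MeasurableSpace X] {ι : Type} {H : ι → Type} [∀ i, Group (H i)]
variable {A : RAct X (Monoid.CoprodI H)} (mv : ∀ i, Gpd (res A (of (M := H) (i := i))))
variable [DecidableEq ι] (τ : X → Option ι)

theorem gw_mem [DecidableEq (Monoid.CoprodI H)] {a b : ℤ} (K : Finset (Monoid.CoprodI H))
    (hK : ∀ i x h, (mv i).rel x h → of h ∈ K) :
    ∀ (n : ℕ) (w : List (Σ i, H i)) (x : X) (z : ℤ), GW mv τ a b x z w → w.length ≤ n →
      lp w ∈ PS K n
  | n, [], x, z, _, _ => by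
      rw [lp_nil]
      exact one_mem_PS K n
  | 0, p :: w, x, z, _, h => by simp at h
  | n + 1, p :: w, x, z, h, h' => by
      have h1 := gw_mem K hK n w _ _ h.2.2 (by simpa using h')
      rw [lp_cons]
      refine Finset.mem_union_right _ (Finset.mem_image.2 ⟨(of p.2, lp w), ?_, rfl⟩)
      exact Finset.mem_product.2 ⟨hK _ _ _ h.2.1, h1⟩

theorem lam_path {m : ℕ} (lam : X → ZMod m)
    (hlam : ∀ i x h, (mv i).rel x h → lam (A.act x (of h)) =
      lam x + ((ind τ i (A.act x (of h)) - ind τ i x : ℤ) : ZMod m)) :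
    ∀ (l : List (Σ i, H i)) (x : X), Pth mv x l →
      lam (A.act x (lp l)) = lam x + ((hz A τ x l : ℤ) : ZMod m)
  | [], x, _ => by simp [lp_nil, A.one, hz]
  | p :: l, x, h => by
      have h1 := lam_path lam hlam l _ h.2
      rw [A.mul, ← lp_cons, hlam p.1 x p.2 h.1] at h1
      rw [h1]
      simp only [hz]
      push_cast
      ring

variable [Countable ι] [∀ i, Countable (H i)]

open Classical in
/-- a one-coloured chain is covered by a path with heights in one block -/
theorem chain_gw (R : Finset (Monoid.CoprodI H)) (N : ℕ)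
    (hN : ∀ r ∈ R, ∀ w : List (Σ i, H i), (∀ p ∈ w, p.2 ≠ 1) →
      w.IsChain (fun p p' => p.1 ≠ p'.1) → lp w = r → w.length ≤ N)
    (lam : X → ZMod (2 * (N + 1)))
    (hlam : ∀ i x h, (mv i).rel x h → lam (A.act x (of h)) =
      lam x + ((ind τ i (A.act x (of h)) - ind τ i x : ℤ) : ZMod (2 * (N + 1))))
    (c : X → Fin 2) (hc : ∀ x, (c x : ℕ) = (lam x).val / (N + 1)) :
    ∀ (l : List (Monoid.CoprodI H)) (x : X) (z : ℤ), Ch (glue mv) R c x l →
      ((z : ℤ) : ZMod (2 * (N + 1))) = lam x →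
      ∃ w, GW mv τ ((z / (N + 1)) * (N + 1) - N) ((z / (N + 1)) * (N + 1) + (N + 1) + N) x z w ∧
        lp w = l.prod
  | [], x, z, _, _ => by
      have hB : (0 : ℤ) < N + 1 := by positivity
      have h1 := Int.emod_nonneg z (ne_of_gt hB)
      have h2 := Int.emod_lt_of_pos z hB
      have h3 := Int.emod_add_mul_ediv z (N + 1)
      refine ⟨[], ⟨?_, ?_⟩, by simp [lp_nil]⟩ <;> nlinarith
  | r :: l, x, z, h, hz0 => by
      have hB : (0 : ℤ) < N + 1 := by positivity
      have h1 := Int.emod_nonneg z (ne_of_gt hB)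
      have h2 := Int.emod_lt_of_pos z hB
      have h3 := Int.emod_add_mul_ediv z (N + 1)
      obtain ⟨⟨hr, ⟨m₀, hm₀, hm₀'⟩, hcc⟩, hl⟩ := h
      obtain ⟨m, hm1, hm2, hm3, hm4⟩ := gw_red mv τ m₀ x z
        (gw_of_pth mv τ (a := z - m₀.length) (b := z + m₀.length) m₀ x z hm₀ le_rfl le_rfl)
      have hmp := gw_pth mv τ m x z hm4
      rw [hm₀'] at hm3
      have hmN := hN r hr m hm1 hm2 hm3
      have hmN' : (m.length : ℤ) ≤ N := by exact_mod_cast hmN
      have hle := hz_le (A := A) τ m x
      rw [abs_le] at hle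
      have hlr := lam_path mv τ lam hlam m x hmp
      rw [hm3] at hlr
      have hz1 : ((z + hz A τ x m : ℤ) : ZMod (2 * (N + 1))) = lam (A.act x r) := by
        rw [hlr, ← hz0]
        push_cast
        ring
      have hval : ∀ (y : X) (u : ℤ), ((u : ℤ) : ZMod (2 * (N + 1))) = lam y →
          ((c y : ℕ) : ℤ) = u % (2 * (N + 1)) / (N + 1) := by
        intro y u hu
        rw [hc, ← hu]
        push_cast
        have : NeZero (2 * (N + 1)) := ⟨by omega⟩
        rw [ZMod.val_intCast]
        push_cast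
        rfl
      have hq : (z + hz A τ x m) / (N + 1) = z / (N + 1) := by
        apply block_eq hB (by omega) (by omega)
        rw [← hval _ _ hz1, ← hval _ _ hz0, hcc]
      obtain ⟨w, hw1, hw2⟩ := chain_gw R N hN lam hlam c hc l (A.act x r) _ hl hz1
      rw [hq] at hw1
      refine ⟨m ++ w, gw_append mv τ m w x z ?_ ?_, ?_⟩
      · exact gw_of_pth mv τ m x z hmp (by nlinarith) (by nlinarith)
      · rw [hm3]
        exact hw1
      · rw [lp_append, hm3, hw2, List.prod_cons]

end Pool.Agent.Helper6.GH
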