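import Pool.Agent.Helper6.GH.FreeFA

/-!
# Generic hyperfiniteness for free products: labels (MP_bdf835_lc)
-/

set_option autoImplicit false
set_option linter.unusedSectionVars false

namespace Pool.Agent.Helper6.GH

open Pool.Agent.Helper44.Sub Pool.Agent.Helper44.Sub.B5 Monoid.CoprodI

variable {X : Type} [MeasurableSpace X] {ι : Type} {H : ι → Type} [∀ i, Group (H i)]
variable {A : RAct X (Monoid.CoprodI H)} (mv : ∀ i, Gpd (res A (of (M := H) (i := i))))
variable [DecidableEq ι] (τ : X → Option ι)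

variable [Countable ι] [∀ i, Countable (H i)]

/-- finite asymptotic dimension of the glued groupoid from labels of all periods -/
theorem FA_glue [Countable (Monoid.CoprodI H)] (hsep : Sep A) (K : Finset (Monoid.CoprodI H))
    (hK : ∀ i x h, (mv i).rel x h → of h ∈ K)
    (hlab : ∀ m : ℕ, 0 < m → ∃ (τ : X → Option ι) (lam : X → ZMod m), MF lam ∧
      (∀ i x h, (mv i).rel x h → h ≠ 1 → τ x = some i ∨ τ (A.act x (of h)) = some i) ∧
      ∀ i x h, (mv i).rel x h → h ≠ 1 → lam (A.act x (of h)) =
        lam x + ((ind τ i (A.act x (of h)) - ind τ i x : ℤ) : ZMod m)) :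
    FA (glue mv) 2 := by
  classical
  refine FA_of_chain hsep (glue mv) 2 fun R => ?_
  let N : ℕ := R.sup (fun r => (Word.equiv r).toList.length)
  have hN : ∀ r ∈ R, ∀ w : List (Σ i, H i), (∀ p ∈ w, p.2 ≠ 1) →
      w.IsChain (fun p p' => p.1 ≠ p'.1) → lp w = r → w.length ≤ N := by
    intro r hr w h1 h2 h3
    let w' : Word H := ⟨w, h1, h2⟩
    have e1 : Word.equiv.symm w' = r := h3
    have e2 : Word.equiv r = w' := by rw [← e1, Equiv.apply_symm_apply]
    have e3 : (Word.equiv r).toList.length = w.length := by rw [e2]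
    rw [← e3]
    exact Finset.le_sup (f := fun r => (Word.equiv r).toList.length) hr
  obtain ⟨τ, lam, hlam0, hτ, hlam1⟩ := hlab (2 * (N + 1)) (by omega)
  have hne : NeZero (2 * (N + 1)) := ⟨by omega⟩
  have hlam : ∀ i x h, (mv i).rel x h → lam (A.act x (of h)) =
      lam x + ((ind τ i (A.act x (of h)) - ind τ i x : ℤ) : ZMod (2 * (N + 1))) := by
    intro i x h hr
    by_cases hh : h = 1
    · rw [hh, map_one, A.one]; simp
    · exact hlam1 i x h hr hh
  let c : X → Fin 2 := fun x => ⟨(lam x).val / (N + 1), by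
    rw [Nat.div_lt_iff_lt_mul (by omega)]
    exact ZMod.val_lt (lam x)⟩
  refine ⟨PS K (2 * (3 * N + 1) + 1), c, ?_, ?_⟩
  · have hfin : Finite (ZMod (2 * (N + 1))) := inferInstance
    exact MF.map hlam0 (fun a => (⟨a.val / (N + 1), by
      rw [Nat.div_lt_iff_lt_mul (by omega)]
      exact ZMod.val_lt a⟩ : Fin 2))
  · intro x l hl
    obtain ⟨w, hw1, hw2⟩ := chain_gw mv τ R N hN lam hlam c (fun _ => rfl) l x ((lam x).val) hl
      (by simp)
    obtain ⟨w', h1, h2, h3, h4⟩ := gw_red mv τ w x _ hw1
    have h5 := updown mv τ hτ w' x _ h1 h2 h4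
    have h6 := gw_head mv τ w' h4
    rw [← hw2, ← h3]
    refine gw_mem mv τ K hK _ w' x _ h4 ?_
    have h7 : (w'.length : ℤ) ≤ 2 * (3 * (N : ℤ) + 1) + 1 := by linarith [h6.1, h6.2]
    exact_mod_cast h7

/-- the word of the inverse -/
noncomputable def wi [∀ i, DecidableEq (H i)] (g : Monoid.CoprodI H) : Word H := Word.equiv g⁻¹

omit [DecidableEq ι] [Countable ι] [∀ i, Countable (H i)] in
theorem fst_rcons [DecidableEq ι] [∀ i, DecidableEq (H i)] {i : ι} (p : Word.Pair H i) :
    (Word.rcons p).fstIdx = some i ↔ p.head ≠ 1 := by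
  unfold Word.rcons
  split_ifs with h
  · constructor
    · intro h'; exact absurd h' p.fstIdx_ne
    · intro h'; exact absurd h h'
  · simp [h]

omit [DecidableEq ι] [Countable ι] [∀ i, Countable (H i)] in
theorem len_rcons [DecidableEq ι] [∀ i, DecidableEq (H i)] {i : ι} (p : Word.Pair H i) :
    ((Word.rcons p).toList.length : ℤ) = p.tail.toList.length + if p.head ≠ 1 then 1 else 0 := by
  unfold Word.rcons
  by_cases h : p.head = 1
  · rw [dif_pos h]; simp [h]
  · rw [dif_neg h]; simp [h, Word.cons]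

theorem wi_mul [∀ i, DecidableEq (H i)] (g : Monoid.CoprodI H) (i : ι) (h : H i) :
    wi (g * of h) = Word.rcons { Word.equivPair i (wi g) with
      head := h⁻¹ * (Word.equivPair i (wi g)).head } := by
  have e : wi (g * of h) = of (h⁻¹) • wi g := by
    show Word.equiv (g * of h)⁻¹ = of (h⁻¹) • Word.equiv g⁻¹
    rw [mul_inv_rev, ← map_inv]
    show (of h⁻¹ * g⁻¹) • (Word.empty : Word H) = of (h⁻¹) • (g⁻¹ • Word.empty)
    rw [mul_smul]
  rw [e, Word.of_smul_def]

theorem wi_self [∀ i, DecidableEq (H i)] (g : Monoid.CoprodI H) (i : ι) :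
    wi g = Word.rcons (Word.equivPair i (wi g)) := by
  rw [← Word.equivPair_symm, Equiv.symm_apply_apply]

/-- the labels on the group -/
theorem model_lab [∀ i, DecidableEq (H i)] (g : Monoid.CoprodI H) (i : ι) (h : H i) (hh : h ≠ 1) :
    ((wi g).fstIdx = some i ∨ (wi (g * of h)).fstIdx = some i) ∧
    ((wi (g * of h)).toList.length : ℤ) = (wi g).toList.length +
      ((if (wi (g * of h)).fstIdx = some i then 1 else 0) -
        (if (wi g).fstIdx = some i then 1 else 0)) := by
  set p := Word.equivPair i (wi g) with hp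
  have e1 : wi g = Word.rcons p := wi_self g i
  have e2 : wi (g * of h) = Word.rcons { p with head := h⁻¹ * p.head } := wi_mul g i h
  have f1 : (wi g).fstIdx = some i ↔ p.head ≠ 1 := by rw [e1]; exact fst_rcons p
  have f2 : (wi (g * of h)).fstIdx = some i ↔ h⁻¹ * p.head ≠ 1 := by
    rw [e2]; exact fst_rcons _
  have l1 : ((wi g).toList.length : ℤ) = p.tail.toList.length + if p.head ≠ 1 then 1 else 0 := by
    rw [e1]; exact len_rcons p
  have l2 : ((wi (g * of h)).toList.length : ℤ) = p.tail.toList.length +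
      if h⁻¹ * p.head ≠ 1 then 1 else 0 := by
    rw [e2]; exact len_rcons _
  refine ⟨?_, ?_⟩
  · by_cases h1 : p.head = 1
    · right
      rw [f2, h1, mul_one]
      exact inv_ne_one.2 hh
    · left
      exact f1.2 h1
  · rw [l1, l2]
    simp only [f1, f2]
    ring

/-- labels exist on a rich space -/
theorem exists_lab (hr : Rich A) (F : Finset ι) (K : Finset (Monoid.CoprodI H)) (m : ℕ)
    (hm : 0 < m) : ∃ (τ : X → Option ι) (lam : X → ZMod m), MF lam ∧
      ∀ i ∈ F, ∀ x, ∀ h : H i, of h ∈ K → h ≠ 1 →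
        (τ x = some i ∨ τ (A.act x (of h)) = some i) ∧ lam (A.act x (of h)) =
        lam x + ((ind τ i (A.act x (of h)) - ind τ i x : ℤ) : ZMod m) := by
  classical
  have hne : NeZero m := ⟨by omega⟩
  have hfin : Finite (ZMod m) := inferInstance
  let κ : Type := Option ↥F × ZMod m
  let ty : Option ↥F → Option ι := fun o => o.map Subtype.val
  let tr : Option ι → Option ↥F := fun o => o.bind fun i => if h : i ∈ F then some ⟨i, h⟩ else none
  have htr : ∀ (o : Option ι) (i : ι), i ∈ F → (ty (tr o) = some i ↔ o = some i) := by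
    intro o i hi
    cases o with
    | none => simp [ty, tr]
    | some j =>
      by_cases hj : j ∈ F
      · simp [ty, tr, hj]
      · simp only [ty, tr, Option.bind_some, hj, dite_false, Option.map_none, Option.some.injEq,
          reduceCtorEq, false_iff]
        intro h
        exact hj (h ▸ hi)
  obtain ⟨v, hv, hvQ⟩ := rich_fin hr κ (insert 1 K)
    (fun f => ∀ i ∈ F, ∀ h : H i, of h ∈ K → h ≠ 1 →
      (ty (f 1).1 = some i ∨ ty (f (of h)).1 = some i) ∧
      (f (of h)).2 = (f 1).2 + (((if ty (f (of h)).1 = some i then 1 else 0) -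
        (if ty (f 1).1 = some i then 1 else 0) : ℤ) : ZMod m))
    (by
      intro f f' hff hf i hi h hK hh
      rw [← hff 1 (by simp), ← hff (of h) (Finset.mem_insert_of_mem hK)]
      exact hf i hi h hK hh)
    (fun g => (tr (wi g).fstIdx, (((wi g).toList.length : ℤ) : ZMod m)))
    (by
      intro g i hi h hK hh
      obtain ⟨h1, h2⟩ := model_lab g i h hh
      simp only [mul_one, htr _ _ hi]
      refine ⟨h1, ?_⟩
      rw [h2]
      push_cast
      ring)
  refine ⟨fun x => ty (v x).1, fun x => (v x).2, MF.map hv Prod.snd, ?_⟩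
  intro i hi x h hK hh
  have := hvQ x i hi h hK hh
  simp only [A.one] at this
  exact this

end Pool.Agent.Helper6.GH
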