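import Pool.Agent.Helper6.GH.FreeLab
import Pool.Agent.Helper44.Sub.Main2
import Pool.Agent.Helper44.Sub.S2

/-!
# Generic hyperfiniteness for free products: the theorem (MP_bdf835_lc)
-/

set_option autoImplicit false
set_option linter.unusedSectionVars false

namespace Pool.Agent.Helper6.GH

open Pool.Agent.Helper44.Sub Pool.Agent.Helper44.Sub.B5 Monoid.CoprodI

/-- every rich action has property (H) -/
def RH (G : Type) [Group G] : Prop :=
  ∀ (X : Type) [MeasurableSpace X] (A : RAct X G), Rich A → HH A

theorem countable_coprodI {ι : Type} {H : ι → Type} [∀ i, Group (H i)] [Countable ι]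
    [∀ i, Countable (H i)] : Countable (Monoid.CoprodI H) := by
  classical
  have h : Function.Injective (fun g : Monoid.CoprodI H => (Word.equiv g).toList) := by
    intro g g' h
    exact Word.equiv.injective (Word.ext h)
  exact h.countable

/-- T1: free products of countable families. -/
theorem RH_coprodI {ι : Type} [Countable ι] {H : ι → Type} [∀ i, Group (H i)]
    [∀ i, Countable (H i)] (hH : ∀ i, RH (H i)) : RH (Monoid.CoprodI H) := by
  classical
  intro X _ A hr
  have : Countable (Monoid.CoprodI H) := countable_coprodI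
  have hsep : Sep A := sep_of_rich hr
  have hHi : ∀ i, HH (res A (of (M := H) (i := i))) := fun i =>
    hH i X _ (rich_res hr _ (of_injective i))
  choose w hw1 hw2 hw3 using hHi
  choose T hT using hw2
  obtain ⟨e, he⟩ := exists_injective_nat ι
  let mv : ℕ → ∀ i, Gpd (res A (of (M := H) (i := i))) := fun t i =>
    { rel := fun x h => (e i < t ∨ h = 1) ∧ ∀ m, t ≤ m → w i m x = h * w i m (A.act x (of h))
      one := by
        intro x
        refine ⟨Or.inr rfl, fun m _ => ?_⟩
        rw [map_one, A.one, one_mul]
      mul := by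
        rintro x s s' ⟨h1, h2⟩ ⟨h3, h4⟩
        refine ⟨?_, fun m hm => ?_⟩
        · rcases h1 with h1 | h1
          · exact Or.inl h1
          · rcases h3 with h3 | h3
            · exact Or.inl h3
            · exact Or.inr (by rw [h1, h3, one_mul])
        · have e1 := h2 m hm
          have e2 : w i m (A.act x (of s)) = s' * w i m (A.act (A.act x (of s)) (of s')) := h4 m hm
          rw [A.mul, ← map_mul] at e2
          rw [e1, e2, mul_assoc]
      inv := by
        rintro x s ⟨h1, h2⟩
        refine ⟨h1.imp id (fun h => by rw [h, inv_one]), fun m hm => ?_⟩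
        have e1 := h2 m hm
        show w i m (A.act x (of s)) = s⁻¹ * w i m (A.act (A.act x (of s)) (of s⁻¹))
        rw [A.mul, ← map_mul, mul_inv_cancel, map_one, A.one, e1, inv_mul_cancel_left]
      meas := by
        intro s
        have h : {x | (e i < t ∨ s = 1) ∧ ∀ m, t ≤ m → w i m x = s * w i m (A.act x (of s))} =
            {x | e i < t ∨ s = 1} ∩ ⋂ (m : ℕ) (_ : t ≤ m),
              {x | w i m x = s * w i m (A.act x (of s))} := by
          ext x
          simp
        rw [h]
        refine (MeasurableSet.const _).inter (MeasurableSet.iInter fun m =>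
          MeasurableSet.iInter fun _ => ?_)
        exact MF.rel₂ (hw1 i m) (MF.act (hw1 i m) (res A (of (M := H) (i := i))) s)
          (fun a b => a = s * b) }
  have hFin : ∀ t : ℕ, {i : ι | e i < t}.Finite := fun t =>
    Set.Finite.preimage he.injOn (Set.finite_lt_nat t)
  have key := Pool.Agent.Helper53.Sub.engine (A := A) (fun t => glue (mv t)) ?_ ?_
  · obtain ⟨u, hu1, hu2, hu3⟩ := key
    refine ⟨u, hu1, hu2, fun x s => hu3 x s ?_⟩
    -- the groupoids exhaust the action
    obtain ⟨l, hl⟩ : ∃ l : List (Σ i, H i), lp l = s :=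
      ⟨(Word.equiv s).toList, Word.equiv.symm_apply_apply s⟩
    have hpath : ∀ (l : List (Σ i, H i)) (x : X), ∃ t₀, ∀ t, t₀ ≤ t → Pth (mv t) x l := by
      intro l
      induction l with
      | nil => exact fun x => ⟨0, fun t _ => trivial⟩
      | cons p l ih =>
        intro x
        obtain ⟨t₁, ht₁⟩ := ih (A.act x (of p.2))
        obtain ⟨t₂, ht₂⟩ := (hw3 p.1 x p.2).bddAbove
        refine ⟨max t₁ (max (t₂ + 1) (e p.1 + 1)), fun t ht => ⟨⟨Or.inl ?_, fun m hm => ?_⟩,
          ht₁ t (le_trans (le_max_left _ _) ht)⟩⟩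
        · have := le_trans (le_trans (le_max_right _ _) (le_max_right _ _)) ht
          omega
        · by_contra hne
          have h1 := ht₂ hne
          have h2 := le_trans (le_trans (le_max_left _ _) (le_max_right _ _)) ht
          omega
    obtain ⟨t₀, ht₀⟩ := hpath l x
    exact ⟨t₀, l, ht₀ t₀ le_rfl, hl⟩
  · -- monotone
    rintro t x s ⟨l, h1, h2⟩
    refine ⟨l, ?_, h2⟩
    clear h2
    revert h1
    induction l generalizing x with
    | nil => exact fun _ => trivial
    | cons p l ih =>
      rintro ⟨⟨h1, h2⟩, h3⟩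
      exact ⟨⟨h1.imp (fun h => by omega) id, fun m hm => h2 m (by omega)⟩, ih _ h3⟩
  · -- finite asymptotic dimension
    intro t
    let F : Finset ι := (hFin t).toFinset
    let K : Finset (Monoid.CoprodI H) := insert 1
      (F.biUnion fun i => (T i t ×ˢ T i t).image (fun p => (of (p.1 * p.2⁻¹) : Monoid.CoprodI H)))
    have hFK : ∀ i x h, (mv t i).rel x h → h = 1 ∨ (i ∈ F ∧ of h ∈ K) := by
      rintro i x h ⟨h1, h2⟩
      rcases h1 with h1 | h1
      · right
        have hi : i ∈ F := by simpa [F] using h1
        refine ⟨hi, Finset.mem_insert_of_mem (Finset.mem_biUnion.2 ⟨i, hi, ?_⟩)⟩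
        refine Finset.mem_image.2 ⟨(w i t x, w i t (A.act x (of h))),
          Finset.mem_product.2 ⟨hT i t x, hT i t _⟩, ?_⟩
        show of (w i t x * (w i t (A.act x (of h)))⁻¹) = of h
        rw [h2 t le_rfl, mul_inv_cancel_right]
      · exact Or.inl h1
    refine ⟨2, FA_glue (mv t) hsep K ?_ ?_⟩
    · intro i x h hr'
      rcases hFK i x h hr' with h1 | h1
      · rw [h1, map_one]; exact Finset.mem_insert_self _ _
      · exact h1.2
    · intro m hm
      obtain ⟨τ, lam, h1, h2⟩ := exists_lab hr F K m hm
      refine ⟨τ, lam, h1, ?_, ?_⟩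
      · intro i x h hr' hh
        obtain ⟨h3, h4⟩ := (hFK i x h hr').resolve_left hh
        exact (h2 i h3 x h h4 hh).1
      · intro i x h hr' hh
        obtain ⟨h3, h4⟩ := (hFK i x h hr').resolve_left hh
        exact (h2 i h3 x h h4 hh).2

end Pool.Agent.Helper6.GH
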