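import Pool.Agent.Helper6.GH.Quot

/-!
# Generic hyperfiniteness: intersections of good normal subgroups, finite index (MP_bdf835_lc)
-/

set_option autoImplicit false
set_option linter.unusedSectionVars false

namespace Pool.Agent.Helper6.GH

open Pool.Agent.Helper44.Sub Pool.Agent.Helper44.Sub.B5

variable {X G : Type} [MeasurableSpace X] [Group G]

theorem mul_mem_cancel {N : Subgroup G} (a b c : G) (h1 : a⁻¹ * b ∈ N) (h2 : b⁻¹ * c ∈ N) :
    a⁻¹ * c ∈ N := by
  have := N.mul_mem h1 h2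
  rwa [mul_assoc, mul_inv_cancel_left] at this

/-- coherent leaders modulo a normal subgroup -/
theorem leaderN [Countable G] {A : RAct X G} {N : Subgroup G} [hN : N.Normal] (hsep : SepN A N)
    (P : Gpd A) (hPN : ∀ x, ∀ n ∈ N, P.rel x n) (T : Finset G)
    (hT : ∀ x s, P.rel x s → ∃ t ∈ T, t⁻¹ * s ∈ N) :
    ∃ w : X → G, MF w ∧ (∀ x, w x ∈ T) ∧ (∀ x, P.rel x (w x)) ∧
      (∀ x, ∀ n ∈ N, w (A.act x n) = w x) ∧
      ∀ x r, P.rel x r → (w x)⁻¹ * r * w (A.act x r) ∈ N := by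
  classical
  obtain ⟨e, he⟩ := exists_injective_nat G
  let T' : Finset G := ((T ×ˢ T).image (fun p => p.1⁻¹ * p.2)).filter (fun g => g ∉ N)
  obtain ⟨q, v, hv, hvN, hvs⟩ := hsep T' (fun s hs => (Finset.mem_filter.1 hs).2)
  -- right translates of a coset
  have hPc : ∀ x s t, P.rel x s → s⁻¹ * t ∈ N → P.rel x t := by
    intro x s t h1 h2
    have := P.mul x s _ h1 (hPN _ _ h2)
    rwa [mul_inv_cancel_left] at this
  have hvc : ∀ x s t, s⁻¹ * t ∈ N → v (A.act x t) = v (A.act x s) := by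
    intro x s t h
    have := hvN (A.act x s) _ h
    rwa [A.mul, mul_inv_cancel_left] at this
  let Cand : X → G → Prop := fun x t => t ∈ T ∧ P.rel x t
  let f : X → G → Lex (Fin q × ℕ) := fun x t => toLex (v (A.act x t), e t)
  have hsepC : ∀ x t t', Cand x t → Cand x t' → v (A.act x t) = v (A.act x t') → t⁻¹ * t' ∈ N := by
    intro x t t' h1 h2 h3
    by_contra hne
    have h4 : t⁻¹ * t' ∈ T' := Finset.mem_filter.2
      ⟨Finset.mem_image.2 ⟨(t, t'), Finset.mem_product.2 ⟨h1.1, h2.1⟩, rfl⟩, hne⟩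
    have h5 := hvs (A.act x t) _ h4
    rw [A.mul, mul_inv_cancel_left] at h5
    exact h5 h3.symm
  have hex : ∀ x, ∃ t, Cand x t ∧ ∀ t', Cand x t' → f x t ≤ f x t' := by
    intro x
    obtain ⟨t₀, h1, h2⟩ := hT x 1 (P.one x)
    have h3 : P.rel x t₀ := by
      refine hPN x t₀ ?_
      have := N.inv_mem h2
      rwa [mul_one, inv_inv] at this
    obtain ⟨t, ht, hmin⟩ := Finset.exists_min_image (T.filter (fun t => P.rel x t)) (f x)
      ⟨t₀, Finset.mem_filter.2 ⟨h1, h3⟩⟩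
    exact ⟨t, Finset.mem_filter.1 ht, fun t' ht' => hmin t' (Finset.mem_filter.2 ht')⟩
  choose w hw1 hw2 using hex
  have huniq : ∀ x t, Cand x t → (∀ t', Cand x t' → f x t ≤ f x t') → w x = t := by
    intro x t h1 h2
    have h3 : f x (w x) = f x t := le_antisymm (hw2 x t h1) (h2 _ (hw1 x))
    have h4 : (v (A.act x (w x)), e (w x)) = (v (A.act x t), e t) := toLex.injective h3
    exact he (congrArg Prod.snd h4)
  have hmin : ∀ x t, Cand x t → v (A.act x (w x)) ≤ v (A.act x t) := by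
    intro x t ht
    have h1 : toLex (v (A.act x (w x)), e (w x)) ≤ toLex (v (A.act x t), e t) := hw2 x t ht
    rw [Prod.Lex.toLex_le_toLex] at h1
    rcases h1 with h1 | h1
    · exact le_of_lt h1
    · exact le_of_eq h1.1
  refine ⟨w, ?_, fun x => (hw1 x).1, fun x => (hw1 x).2, ?_, ?_⟩
  · intro t
    have h : {x | w x = t} = ({x | t ∈ T} ∩ {x | P.rel x t}) ∩
        ⋂ t' : G, (({x | t' ∈ T} ∩ {x | P.rel x t'})ᶜ ∪ {x | f x t ≤ f x t'}) := by
      ext x
      simp only [Set.mem_inter_iff, Set.mem_iInter, Set.mem_union, Set.mem_compl_iff,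
        Set.mem_ofPred_eq]
      constructor
      · rintro rfl
        refine ⟨hw1 x, fun t' => ?_⟩
        by_cases h : Cand x t'
        · exact Or.inr (hw2 x t' h)
        · exact Or.inl h
      · rintro ⟨h1, h2⟩
        exact huniq x t h1 fun t' ht' => (h2 t').resolve_left (fun h => h ht')
    rw [h]
    refine ((MeasurableSet.const _).inter (P.meas t)).inter (MeasurableSet.iInter fun t' =>
      ((MeasurableSet.const _).inter (P.meas t')).compl.union ?_)
    exact MF.rel₂ (MF.act hv A t) (MF.act hv A t')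
      (fun a b => toLex (a, e t) ≤ toLex (b, e t'))
  · intro x n hn
    have hconj : ∀ t : G, t⁻¹ * (n * t) ∈ N := by
      intro t
      have := hN.conj_mem n hn t⁻¹
      rwa [inv_inv, mul_assoc] at this
    have hC : ∀ t, P.rel (A.act x n) t ↔ P.rel x t := by
      intro t
      constructor
      · intro h
        have h1 := P.mul x n t (hPN x n hn) h
        refine hPc x _ _ h1 ?_
        have := N.inv_mem (hconj t)
        rwa [mul_inv_rev, inv_inv] at this
      · intro h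
        have h0 : P.rel (A.act x n) n⁻¹ := P.inv x n (hPN x n hn)
        have h1 := P.mul (A.act x n) n⁻¹ t h0 (by rw [A.mul, mul_inv_cancel, A.one]; exact h)
        refine hPc _ _ _ h1 ?_
        have h2 := hconj t
        rw [mul_inv_rev, inv_inv]
        rwa [mul_assoc]
    have hf : ∀ t, f (A.act x n) t = f x t := by
      intro t
      show toLex (v (A.act (A.act x n) t), e t) = toLex (v (A.act x t), e t)
      rw [A.mul, hvc x t (n * t) (hconj t)]
    refine huniq _ _ ⟨(hw1 x).1, (hC _).2 (hw1 x).2⟩ fun t' ht' => ?_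
    rw [hf, hf]
    exact hw2 x t' ⟨ht'.1, (hC t').1 ht'.2⟩
  · intro x r hr
    have h1 := P.mul x r _ hr (hw1 (A.act x r)).2
    obtain ⟨t, ht, htN⟩ := hT x _ h1
    have htC : Cand x t := ⟨ht, hPc x _ t h1 (by
      have := N.inv_mem htN
      rwa [mul_inv_rev, inv_inv] at this)⟩
    have e1 : v (A.act (A.act x r) (w (A.act x r))) = v (A.act x t) := by
      rw [A.mul]
      exact hvc x t _ htN
    have h2 := P.mul (A.act x r) r⁻¹ (w x) (P.inv x r hr)
      (by rw [A.mul, mul_inv_cancel, A.one]; exact (hw1 x).2)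
    obtain ⟨t', ht', htN'⟩ := hT _ _ h2
    have htC' : Cand (A.act x r) t' := ⟨ht', hPc _ _ t' h2 (by
      have := N.inv_mem htN'
      rwa [mul_inv_rev, inv_inv] at this)⟩
    have e2 : v (A.act x (w x)) = v (A.act (A.act x r) t') := by
      rw [← hvc (A.act x r) t' _ htN', A.mul, mul_inv_cancel_left]
    have h3 : v (A.act x (w x)) = v (A.act x t) := by
      refine le_antisymm (hmin x t htC) ?_
      rw [← e1, e2]
      exact hmin _ _ htC'
    have h4 := hsepC x (w x) t (hw1 x) htC h3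
    rw [mul_assoc]
    exact mul_mem_cancel _ _ _ h4 htN

/-- the intersection of two good normal subgroups is good -/
theorem good_inf [Countable G] {A : RAct X G} {N₁ N₂ : Subgroup G} [hN₁ : N₁.Normal]
    [hN₂ : N₂.Normal] (h₁ : GoodN A N₁) (h₂ : GoodN A N₂) : GoodN A (N₁ ⊓ N₂) := by
  classical
  have hsep : SepN A (N₁ ⊓ N₂) := by
    intro E hE
    obtain ⟨q₁, v₁, a1, a2, a3⟩ := h₁.sep (E.filter (fun s => s ∉ N₁))
      (fun s hs => (Finset.mem_filter.1 hs).2)
    obtain ⟨q₂, v₂, b1, b2, b3⟩ := h₂.sep (E.filter (fun s => s ∉ N₂))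
      (fun s hs => (Finset.mem_filter.1 hs).2)
    refine ⟨q₁ * q₂, fun x => finProdFinEquiv (v₁ x, v₂ x), ?_, ?_, ?_⟩
    · intro b
      have h : {x | finProdFinEquiv (v₁ x, v₂ x) = b} =
          {x | v₁ x = (finProdFinEquiv.symm b).1} ∩ {x | v₂ x = (finProdFinEquiv.symm b).2} := by
        ext x
        simp only [Set.mem_ofPred_eq, Set.mem_inter_iff]
        rw [← Equiv.eq_symm_apply, Prod.ext_iff]
      rw [h]
      exact (a1 _).inter (b1 _)
    · intro x n hn
      show finProdFinEquiv (v₁ (A.act x n), v₂ (A.act x n)) = finProdFinEquiv (v₁ x, v₂ x)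
      rw [a2 x n hn.1, b2 x n hn.2]
    · intro x s hs h
      have h' := Prod.ext_iff.1 (finProdFinEquiv.injective h)
      have hs' := hE s hs
      by_cases h1 : s ∈ N₁
      · have h2 : s ∉ N₂ := fun h2 => hs' ⟨h1, h2⟩
        exact b3 x s (Finset.mem_filter.2 ⟨hs, h2⟩) h'.2
      · exact a3 x s (Finset.mem_filter.2 ⟨hs, h1⟩) h'.1
  refine ⟨hsep, ?_⟩
  obtain ⟨w₁, a1, a2, a3, a4⟩ := h₁.hh
  obtain ⟨w₂, b1, b2, b3, b4⟩ := h₂.hh
  choose T₁ hT₁ using a2
  choose T₂ hT₂ using b2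
  have hco : ∀ (w : ℕ → X → G) (N : Subgroup G) (hN : N.Normal)
      (hinv : ∀ m x, ∀ n ∈ N, w m (A.act x n) = w m x) (m : ℕ) (x : X), ∀ n ∈ N,
      (w m x)⁻¹ * n * w m (A.act x n) ∈ N := by
    intro w N hN hinv m x n hn
    rw [hinv m x n hn]
    have := hN.conj_mem n hn (w m x)⁻¹
    rwa [inv_inv] at this
  have hrep : ∀ (N : Subgroup G) (hN : N.Normal) (a s a' : G), a⁻¹ * s * a' ∈ N →
      (a * a'⁻¹)⁻¹ * s ∈ N := by
    intro N hN a s a' h
    have := hN.conj_mem _ h a'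
    have e : a' * (a⁻¹ * s * a') * a'⁻¹ = (a * a'⁻¹)⁻¹ * s := by group
    rwa [e] at this
  have key : ∀ m, ∃ w : X → G, MF w ∧ (∃ T : Finset G, ∀ x, w x ∈ T) ∧
      (∀ x, ∀ n ∈ N₁ ⊓ N₂, w (A.act x n) = w x) ∧
      ∀ x s, (w₁ m x)⁻¹ * s * w₁ m (A.act x s) ∈ N₁ → (w₂ m x)⁻¹ * s * w₂ m (A.act x s) ∈ N₂ →
        (w x)⁻¹ * s * w (A.act x s) ∈ N₁ ⊓ N₂ := by
    intro m
    let P : Gpd A :=
      { rel := fun x s => (w₁ m x)⁻¹ * s * w₁ m (A.act x s) ∈ N₁ ∧
          (w₂ m x)⁻¹ * s * w₂ m (A.act x s) ∈ N₂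
        one := fun x => by rw [cocycle_one, cocycle_one]; exact ⟨N₁.one_mem, N₂.one_mem⟩
        mul := fun x s t h h' => by
          rw [cocycle_mul, cocycle_mul]
          exact ⟨N₁.mul_mem h.1 h'.1, N₂.mul_mem h.2 h'.2⟩
        inv := fun x s h => by
          rw [cocycle_inv, cocycle_inv]
          exact ⟨N₁.inv_mem h.1, N₂.inv_mem h.2⟩
        meas := fun s => (measurableSet_cocycle A (w₁ m) (a1 m) s N₁).inter
          (measurableSet_cocycle A (w₂ m) (b1 m) s N₂) }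
    let ch : (G × G) × (G × G) → G := fun p =>
      if h : ∃ g, (p.1.1 * p.1.2⁻¹)⁻¹ * g ∈ N₁ ∧ (p.2.1 * p.2.2⁻¹)⁻¹ * g ∈ N₂ then h.choose else 1
    let T : Finset G := ((T₁ m ×ˢ T₁ m) ×ˢ (T₂ m ×ˢ T₂ m)).image ch
    obtain ⟨w, c1, c2, c3, c4, c5⟩ := leaderN hsep P
      (fun x n hn => ⟨hco w₁ N₁ hN₁ a3 m x n hn.1, hco w₂ N₂ hN₂ b3 m x n hn.2⟩) T (by
        rintro x s ⟨h1, h2⟩
        let p : (G × G) × (G × G) := ((w₁ m x, w₁ m (A.act x s)), (w₂ m x, w₂ m (A.act x s)))
        have hp : ∃ g, (p.1.1 * p.1.2⁻¹)⁻¹ * g ∈ N₁ ∧ (p.2.1 * p.2.2⁻¹)⁻¹ * g ∈ N₂ :=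
          ⟨s, hrep N₁ hN₁ _ _ _ h1, hrep N₂ hN₂ _ _ _ h2⟩
        have hch : ch p = hp.choose := dif_pos hp
        refine ⟨ch p, Finset.mem_image.2 ⟨p, ?_, rfl⟩, ?_⟩
        · simp only [Finset.mem_product]
          exact ⟨⟨hT₁ m _, hT₁ m _⟩, hT₂ m _, hT₂ m _⟩
        · have h3 := hp.choose_spec
          rw [← hch] at h3
          have hq : ∀ (N : Subgroup G) (u s t : G), u⁻¹ * s ∈ N → u⁻¹ * t ∈ N → t⁻¹ * s ∈ N := by
            intro N u s t k1 k2
            have := N.mul_mem (N.inv_mem k2) k1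
            rwa [mul_inv_rev, inv_inv, mul_assoc, mul_inv_cancel_left] at this
          exact ⟨hq N₁ _ _ _ (hrep N₁ hN₁ _ _ _ h1) h3.1, hq N₂ _ _ _ (hrep N₂ hN₂ _ _ _ h2) h3.2⟩)
    exact ⟨w, c1, ⟨T, c2⟩, c4, fun x s h1 h2 => c5 x s ⟨h1, h2⟩⟩
  choose w c1 c2 c3 c4 using key
  refine ⟨w, c1, c2, c3, ?_⟩
  intro x s
  refine ((a4 x s).union (b4 x s)).subset ?_
  intro m hm
  by_contra hcon
  simp only [Set.mem_union, Set.mem_ofPred_eq, not_or, not_not] at hcon
  exact hm (c4 m x s hcon.1 hcon.2)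

theorem normal_iInf {ι : Type} (N : ι → Subgroup G) (h : ∀ i, (N i).Normal) :
    (⨅ i, N i).Normal := by
  constructor
  intro n hn g
  rw [Subgroup.mem_iInf] at hn ⊢
  exact fun i => (h i).conj_mem n (hn i) g

/-- finite intersections of good normal subgroups are good -/
theorem good_iInf [Countable G] {A : RAct X G} : ∀ (k : ℕ) (N : Fin k → Subgroup G),
    (∀ i, (N i).Normal) → (∀ i, GoodN A (N i)) → GoodN A (⨅ i, N i)
  | 0, N, _, _ => by
      rw [iInf_of_empty]
      exact good_top A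
  | k + 1, N, h1, h2 => by
      have h3 := good_iInf k (fun i => N i.succ) (fun i => h1 _) (fun i => h2 _)
      have e : (⨅ i, N i) = N 0 ⊓ ⨅ i : Fin k, N i.succ := by
        refine le_antisymm (le_inf (iInf_le _ _) (le_iInf fun i => iInf_le _ _)) ?_
        refine le_iInf fun i => ?_
        refine Fin.cases ?_ (fun j => ?_) i
        · exact inf_le_left
        · exact inf_le_right.trans (iInf_le (fun i : Fin k => N i.succ) j)
      have hn1 : (N 0).Normal := h1 0
      have hn2 : (⨅ i : Fin k, N i.succ).Normal := normal_iInf _ (fun i => h1 _)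
      rw [e]
      exact good_inf (h2 0) h3

/-- property (H) from a good normal subgroup with two layers of locally finite asymptotic
dimension -/
theorem HH_of_good [Countable G] {A : RAct X G} (hr : Rich A) (N N₂ : Subgroup G) [N.Normal]
    [N₂.Normal] (hg : GoodN A N) (hle : N₂ ≤ N)
    (hmid : ∀ M : Subgroup G, M ≤ N → M.FG → ∃ D, GAs ↥(M.map (QuotientGroup.mk' N₂)) D)
    (hbot : ∀ M : Subgroup G, M ≤ N₂ → M.FG → ∃ D, GAs ↥M D) : HH A := by
  have hHN : HHN A N₂ := by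
    refine Pool.Agent.Helper98.Sub.HHN_of_exact_of
      (fun _ _ _ _ _ _ N _ J δ h1 h2 h3 h4 h5 h6 =>
        Pool.Agent.Helper44.Sub.engineN N J δ h1 h2 h3 h4 h5 h6)
      hr (qact A N) (QuotientGroup.mk' N) (QuotientGroup.mk'_surjective _) (qm A N)
      (qm_meas A N) (fun _ _ => rfl) (HH_qact hg) N₂ ?_ ?_
    · rw [QuotientGroup.ker_mk']; exact hle
    · rw [QuotientGroup.ker_mk']; exact hmid
  refine HH_of_HHN A N₂ hHN ?_
  intro J σ S M' hσ hS hM' hfg hJ
  obtain ⟨D', h⟩ := hbot M' hM' hfg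
  exact FA_of_rich hr J σ hσ S hS M' D' h hJ

/-- finitely generated overgroups of finite index -/
theorem RH_index [Countable G] (hfg : Group.FG G) (K : Subgroup G) [hK : K.FiniteIndex]
    (h : RH ↥K) : RH G := by
  classical
  intro X _ A hr
  have hcore : K.normalCore.FiniteIndex := inferInstance
  obtain ⟨φ, hφ1, hφ2⟩ := exists_equivariant hr hfg K.normalCore hcore
  obtain ⟨w, hw1, hw2, hw3⟩ := h X (res A K.subtype) (rich_res hr K.subtype K.subtype_injective)
  choose T hT using hw2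
  let ρ : X → G := fun x => ((φ x)⁻¹).out
  have hfinQ : Finite (G ⧸ K.normalCore) := Subgroup.finite_quotient_of_finiteIndex
  have hρ : MF ρ := MF.map hφ1 (fun a : G ⧸ K.normalCore => (a⁻¹).out)
  have hρ1 : ∀ x, φ (A.act x (ρ x)) = 1 := by
    intro x
    rw [hφ2]
    show φ x * ((((φ x)⁻¹).out : G) : G ⧸ K.normalCore) = 1
    rw [QuotientGroup.out_eq', mul_inv_cancel]
  refine ⟨fun m x => ρ x * (w m (A.act x (ρ x)) : G), ?_, ?_, ?_⟩
  · intro m
    refine MF.bind hρ (F := fun a x => a * (w m (A.act x a) : G)) (fun a => ?_)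
    exact MF.map (MF.act (hw1 m) A a) (fun b : ↥K => a * (b : G))
  · intro m
    have := Fintype.ofFinite (G ⧸ K.normalCore)
    refine ⟨((Finset.univ : Finset (G ⧸ K.normalCore)) ×ˢ T m).image
      (fun p => (p.1⁻¹).out * (p.2 : G)), fun x => ?_⟩
    exact Finset.mem_image.2 ⟨(φ x, w m (A.act x (ρ x))),
      Finset.mem_product.2 ⟨Finset.mem_univ _, hT m _⟩, rfl⟩
  · intro x s
    have e1 : A.act (A.act x (ρ x)) ((ρ x)⁻¹ * s * ρ (A.act x s)) =
        A.act (A.act x s) (ρ (A.act x s)) := by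
      rw [A.mul, A.mul]
      congr 1
      group
    have hk : (ρ x)⁻¹ * s * ρ (A.act x s) ∈ K := by
      apply K.normalCore_le
      rw [← QuotientGroup.eq_one_iff]
      have h1 := hφ2 (A.act x (ρ x)) ((ρ x)⁻¹ * s * ρ (A.act x s))
      rw [e1, hρ1, hρ1, one_mul] at h1
      exact h1.symm
    refine (hw3 (A.act x (ρ x)) ⟨_, hk⟩).subset ?_
    intro m hm h1
    apply hm
    show ρ x * (w m (A.act x (ρ x)) : G) = s * (ρ (A.act x s) * (w m (A.act (A.act x s)
      (ρ (A.act x s))) : G))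
    have h2 : w m (A.act x (ρ x)) = ⟨_, hk⟩ * w m (A.act (A.act x (ρ x))
      ((ρ x)⁻¹ * s * ρ (A.act x s))) := h1
    rw [e1] at h2
    rw [h2]
    show ρ x * ((ρ x)⁻¹ * s * ρ (A.act x s) * (w m (A.act (A.act x s) (ρ (A.act x s))) : G)) = _
    group

/-- invariance under isomorphism -/
theorem RH_iso {G G' : Type} [Group G] [Group G'] (e : G ≃* G') (h : RH G) : RH G' := by
  classical
  intro X _ A hr
  obtain ⟨w, hw1, hw2, hw3⟩ := h X (res A e.toMonoidHom) (rich_res hr e.toMonoidHom e.injective)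
  refine ⟨fun m x => e (w m x), ?_, ?_, ?_⟩
  · intro m b
    have h1 : {x | e (w m x) = b} = {x | w m x = e.symm b} := by
      ext x
      simp only [Set.mem_ofPred_eq]
      exact ⟨fun h => by rw [← h]; simp, fun h => by rw [h]; simp⟩
    rw [h1]
    exact hw1 m _
  · intro m
    obtain ⟨T, hT⟩ := hw2 m
    exact ⟨T.image (fun g => e g), fun x => Finset.mem_image_of_mem _ (hT x)⟩
  · intro x s
    refine (hw3 x (e.symm s)).subset ?_
    intro m hm h1
    apply hm
    have h2 : w m x = e.symm s * w m (A.act x (e (e.symm s))) := h1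
    show e (w m x) = s * e (w m (A.act x s))
    rw [h2, map_mul, e.apply_symm_apply]

end Pool.Agent.Helper6.GH
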