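import Pool.Agent.Helper6.GH.FreeMain

/-!
# Generic hyperfiniteness: the action of a quotient group on the orbit space (MP_bdf835_lc)
-/

set_option autoImplicit false
set_option linter.unusedSectionVars false

namespace Pool.Agent.Helper6.GH

open Pool.Agent.Helper44.Sub Pool.Agent.Helper44.Sub.B5

variable {X G : Type} [MeasurableSpace X] [Group G]

/-- the orbit equivalence relation of a subgroup -/
def orbS (A : RAct X G) (N : Subgroup G) : Setoid X where
  r := fun x y => ∃ n ∈ N, y = A.act x n
  iseqv := by
    refine ⟨fun x => ⟨1, N.one_mem, (A.one x).symm⟩, ?_, ?_⟩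
    · rintro x y ⟨n, hn, rfl⟩
      exact ⟨n⁻¹, N.inv_mem hn, by rw [A.mul, mul_inv_cancel, A.one]⟩
    · rintro x y z ⟨n, hn, rfl⟩ ⟨n', hn', rfl⟩
      exact ⟨n * n', N.mul_mem hn hn', by rw [A.mul]⟩

/-- the orbit space -/
abbrev QX (A : RAct X G) (N : Subgroup G) : Type := Quotient (orbS A N)

/-- the class of a point -/
def qm (A : RAct X G) (N : Subgroup G) (x : X) : QX A N := Quotient.mk (orbS A N) x

theorem qm_eq (A : RAct X G) (N : Subgroup G) (x : X) (n : G) (hn : n ∈ N) :
    qm A N (A.act x n) = qm A N x :=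
  (Quotient.sound (s := orbS A N) (⟨n, hn, rfl⟩ : (orbS A N).r x (A.act x n))).symm

theorem qm_meas (A : RAct X G) (N : Subgroup G) : Measurable (qm A N) :=
  measurable_quotient_mk''

/-- the action of the quotient group on the orbit space -/
def qact (A : RAct X G) (N : Subgroup G) [hN : N.Normal] : RAct (QX A N) (G ⧸ N) where
  act := Quotient.map₂ (fun x g => A.act x g) (by
    rintro x y ⟨n, hn, rfl⟩ g g' hg
    have hg' : g⁻¹ * g' ∈ N := QuotientGroup.leftRel_apply.1 hg
    refine ⟨g⁻¹ * n * g * (g⁻¹ * g'), ?_, ?_⟩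
    · refine N.mul_mem ?_ hg'
      have := hN.conj_mem n hn g⁻¹
      rwa [inv_inv] at this
    · rw [A.mul, A.mul]
      congr 1
      group)
  one := by
    intro q
    induction q using Quotient.inductionOn with
    | h x =>
      show qm A N (A.act x 1) = qm A N x
      rw [A.one]
  mul := by
    intro q s t
    induction q using Quotient.inductionOn with
    | h x =>
      induction s using QuotientGroup.induction_on with
      | H s =>
        induction t using QuotientGroup.induction_on with
        | H t =>
          show qm A N (A.act (A.act x s) t) = qm A N (A.act x (s * t))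
          rw [A.mul]
  meas := by
    intro s
    induction s using QuotientGroup.induction_on with
    | H s =>
      intro S hS
      have h1 : MeasurableSet (qm A N ⁻¹' S) := qm_meas A N hS
      exact measurableSet_quotient.2 (A.meas s h1)

theorem qact_mk (A : RAct X G) (N : Subgroup G) [N.Normal] (x : X) (g : G) :
    (qact A N).act (qm A N x) (g : G ⧸ N) = qm A N (A.act x g) := rfl

theorem qMF {B : Type} (A : RAct X G) (N : Subgroup G) (f : QX A N → B)
    (hf : MF (fun x => f (qm A N x))) : MF f := by
  intro b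
  exact measurableSet_quotient.2 (hf b)

/-- the orbit space of a finitely generated normal subgroup of a rich action is rich -/
theorem rich_quot {A : RAct X G} (hr : Rich A) (N : Subgroup G) [hN : N.Normal] (hfg : N.FG) :
    Rich (qact A N) := by
  classical
  intro k E Q hloc hsol
  obtain ⟨c, hc⟩ := hsol
  obtain ⟨S, hS⟩ := hfg
  obtain ⟨v, hv, hvQ⟩ := hr k (insert 1 (S ∪ E.image (fun q => q.out)))
    (fun f => Q (fun q => f q.out) ∧ ∀ n ∈ S, f n = f 1)
    (by
      rintro f f' hff ⟨h1, h2⟩
      have hS' : ∀ n ∈ S, f n = f' n := fun n hn =>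
        hff n (Finset.mem_insert_of_mem (Finset.mem_union_left _ hn))
      refine ⟨hloc _ _ (fun q hq => hff _ (Finset.mem_insert_of_mem
        (Finset.mem_union_right _ (Finset.mem_image_of_mem _ hq)))) h1, fun n hn => ?_⟩
      rw [← hS' n hn, ← hff 1 (Finset.mem_insert_self _ _)]
      exact h2 n hn)
    ⟨fun g => c (g : G ⧸ N), by
      intro g
      refine ⟨?_, fun n hn => ?_⟩
      · have h := hc (g : G ⧸ N)
        have e : (fun q : G ⧸ N => c ((g * q.out : G) : G ⧸ N)) = fun q => c ((g : G ⧸ N) * q) := by
          funext q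
          rw [QuotientGroup.mk_mul, QuotientGroup.out_eq']
        rw [e]
        exact h
      · have hnN : n ∈ N := by rw [← hS]; exact Subgroup.subset_closure hn
        show c ((g * n : G) : G ⧸ N) = c ((g * 1 : G) : G ⧸ N)
        rw [mul_one, QuotientGroup.mk_mul, (QuotientGroup.eq_one_iff n).2 hnN, mul_one]⟩
  have hinv : ∀ n ∈ N, ∀ x, v (A.act x n) = v x := by
    intro n hn
    rw [← hS] at hn
    induction hn using Subgroup.closure_induction with
    | mem n hn =>
      intro x
      have h : v (A.act x n) = v (A.act x 1) := (hvQ x).2 n hn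
      rw [A.one] at h
      exact h
    | one => intro x; rw [A.one]
    | mul a b _ _ ha hb =>
      intro x
      rw [← A.mul, hb, ha]
    | inv a _ ha =>
      intro x
      have h := ha (A.act x a⁻¹)
      rw [A.mul, inv_mul_cancel, A.one] at h
      exact h.symm
  let v' : QX A N → Fin k := Quotient.lift v (by
    rintro x y ⟨n, hn, rfl⟩
    exact (hinv n hn x).symm)
  refine ⟨v', qMF A N v' hv, ?_⟩
  intro q
  induction q using Quotient.inductionOn with
  | h x =>
    have h := (hvQ x).1
    have e : (fun s : G ⧸ N => v' ((qact A N).act (qm A N x) s)) =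
        fun q : G ⧸ N => v (A.act x q.out) := by
      funext q
      conv_lhs => rw [← QuotientGroup.out_eq' q]
      rfl
    show Q (fun s : G ⧸ N => v' ((qact A N).act (qm A N x) s))
    rw [e]
    exact h

/-- separation modulo a normal subgroup -/
def SepN (A : RAct X G) (N : Subgroup G) : Prop :=
  ∀ E : Finset G, (∀ s ∈ E, s ∉ N) → ∃ (q : ℕ) (v : X → Fin q), MF v ∧
    (∀ x, ∀ n ∈ N, v (A.act x n) = v x) ∧ ∀ x, ∀ s ∈ E, v (A.act x s) ≠ v x

/-- Property (H) for the quotient by a normal subgroup, with invariant maps -/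
structure GoodN (A : RAct X G) (N : Subgroup G) : Prop where
  sep : SepN A N
  hh : ∃ w : ℕ → X → G, (∀ m, MF (w m)) ∧ (∀ m, ∃ T : Finset G, ∀ x, w m x ∈ T) ∧
    (∀ m x, ∀ n ∈ N, w m (A.act x n) = w m x) ∧
    ∀ x s, {m | (w m x)⁻¹ * s * w m (A.act x s) ∉ N}.Finite

theorem good_top (A : RAct X G) : GoodN A ⊤ := by
  refine ⟨?_, fun _ _ => 1, ?_, ?_, ?_, ?_⟩
  · intro E hE
    refine ⟨1, fun _ => 0, ?_, fun _ _ _ => rfl, fun x s hs => absurd trivial (hE s hs)⟩
    intro b
    exact MeasurableSet.const _
  · intro m b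
    exact MeasurableSet.const _
  · exact fun m => ⟨{1}, fun x => Finset.mem_singleton_self _⟩
  · exact fun _ _ _ _ => rfl
  · intro x s
    simp

/-- the orbit space of a good normal subgroup has property (H) -/
theorem HH_qact {A : RAct X G} {N : Subgroup G} [N.Normal] (h : GoodN A N) :
    HH (qact A N) := by
  classical
  obtain ⟨w, h1, h2, h3, h4⟩ := h.hh
  let w' : ℕ → QX A N → G ⧸ N := fun m => Quotient.lift (fun x => (w m x : G ⧸ N)) (by
    rintro x y ⟨n, hn, rfl⟩
    show (w m x : G ⧸ N) = (w m (A.act x n) : G ⧸ N)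
    rw [h3 m x n hn])
  have hw' : ∀ m x, w' m (qm A N x) = (w m x : G ⧸ N) := fun _ _ => rfl
  refine ⟨w', fun m => ?_, fun m => ?_, ?_⟩
  · refine qMF A N (w' m) ?_
    intro b
    have h : {x | w' m (qm A N x) = b} = ⋃ g : {g : G // (g : G ⧸ N) = b ∧ ∃ x, w m x = g},
        {x | w m x = g.1} := by
      ext x
      simp only [Set.mem_ofPred_eq, Set.mem_iUnion, Subtype.exists]
      constructor
      · intro hx
        exact ⟨w m x, ⟨hx, x, rfl⟩, rfl⟩
      · rintro ⟨g, ⟨hg, -⟩, hx⟩
        rw [hw', hx, hg]
    obtain ⟨T, hT⟩ := h2 m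
    have hfin : Finite {g : G // (g : G ⧸ N) = b ∧ ∃ x, w m x = g} := by
      refine Set.Finite.to_subtype (T.finite_toSet.subset ?_)
      rintro g ⟨-, x, rfl⟩
      exact hT x
    rw [h]
    exact MeasurableSet.iUnion fun g => h1 m g.1
  · obtain ⟨T, hT⟩ := h2 m
    refine ⟨T.image (fun g : G => (g : G ⧸ N)), ?_⟩
    intro q
    induction q using Quotient.inductionOn with
    | h x => exact Finset.mem_image_of_mem (fun g : G => (g : G ⧸ N)) (hT x)
  · intro q s
    induction q using Quotient.inductionOn with
    | h x =>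
      induction s using QuotientGroup.induction_on with
      | H s =>
        refine (h4 x s).subset ?_
        intro m hm hN
        apply hm
        show (w m x : G ⧸ N) = (s : G ⧸ N) * (w m (A.act x s) : G ⧸ N)
        rw [← QuotientGroup.mk_mul]
        refine QuotientGroup.eq.2 ?_
        rw [← mul_assoc]
        exact hN

/-- a finitely generated normal subgroup is good if rich actions of the quotient have (H) -/
theorem good_of_fg [Countable G] {A : RAct X G} (hr : Rich A) (N : Subgroup G) [hN : N.Normal]
    (hfg : N.FG) (hQ : RH (G ⧸ N)) : GoodN A N := by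
  classical
  have hrq := rich_quot hr N hfg
  have : Countable (G ⧸ N) := (QuotientGroup.mk_surjective (s := N)).countable
  have hsep : Sep (qact A N) := sep_of_rich hrq
  obtain ⟨w, hw1, hw2, hw3⟩ := hQ _ _ hrq
  refine ⟨?_, fun m x => (w m (qm A N x)).out, ?_, ?_, ?_, ?_⟩
  · intro E hE
    obtain ⟨q, v, hv, hvs⟩ := hsep (E.image (fun s : G => (s : G ⧸ N))) (by
      intro h
      obtain ⟨s, hs, h1⟩ := Finset.mem_image.1 h
      exact hE s hs ((QuotientGroup.eq_one_iff s).1 h1))
    refine ⟨q, fun x => v (qm A N x), fun b => qm_meas A N (hv b), ?_, ?_⟩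
    · intro x n hn
      show v (qm A N (A.act x n)) = v (qm A N x)
      rw [qm_eq A N x n hn]
    · intro x s hs
      exact hvs (qm A N x) _ (Finset.mem_image_of_mem (fun s : G => (s : G ⧸ N)) hs)
  · intro m g
    by_cases h : ((g : G ⧸ N)).out = g
    · have e : {x | (w m (qm A N x)).out = g} = qm A N ⁻¹' {q | w m q = (g : G ⧸ N)} := by
        ext x
        simp only [Set.mem_ofPred_eq, Set.mem_preimage]
        constructor
        · intro h1
          rw [← h1, QuotientGroup.out_eq']
        · intro h1
          rw [h1, h]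
      rw [e]
      exact qm_meas A N (hw1 m _)
    · have e : {x | (w m (qm A N x)).out = g} = ∅ := by
        ext x
        simp only [Set.mem_ofPred_eq, Set.mem_empty_iff_false, iff_false]
        intro h1
        apply h
        rw [← h1, QuotientGroup.out_eq']
      rw [e]
      exact MeasurableSet.empty
  · intro m
    obtain ⟨T, hT⟩ := hw2 m
    exact ⟨T.image (fun q => q.out), fun x => Finset.mem_image_of_mem _ (hT _)⟩
  · intro m x n hn
    show (w m (qm A N (A.act x n))).out = (w m (qm A N x)).out
    rw [qm_eq A N x n hn]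
  · intro x s
    refine (hw3 (qm A N x) (s : G ⧸ N)).subset ?_
    intro m hm h
    apply hm
    rw [← QuotientGroup.eq_one_iff, QuotientGroup.mk_mul, QuotientGroup.mk_mul,
      QuotientGroup.mk_inv, QuotientGroup.out_eq', QuotientGroup.out_eq', ← qact_mk, h]
    group

end Pool.Agent.Helper6.GH
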